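import Pool.Agent.H84.Are2

namespace Pool.Agent.Results.MP_5068ad_an.NotOpen

open Pool.Agent.H84.AreDefs Pool.Agent.H84

theorem result : ∃ (A : Type) (_ : NormedAddCommGroup A) (_ : NormedSpace ℝ A)
    (_ : CompleteSpace A) (m : A → A → A) (P Q : D (D A) → D (D A) → D (D A)),
    IsAlgMul m ∧ IsArens₁ m P ∧ IsArens₂ m Q ∧ IsOpenMul m ∧ ¬ IsOpenMul P ∧ ¬ IsOpenMul Q :=
  ⟨Are.A, inferInstance, inferInstance, inferInstance, fun a b => Are.m a b, Are.arens₁ Are.m,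
    Are.arens₂ Are.m, ⟨by simp, by simp, by simp, by simp,
      fun _ _ _ => Are.S_ext fun _ => by simp only [Are.S_m, mul_assoc], Are.norm_m⟩,
    fun _ G f => ⟨Are.dot Are.m G f, fun a =>
      ⟨ContinuousLinearMap.comp f (Are.m a), fun _ => rfl, rfl⟩, rfl⟩,
    fun F _ f => ⟨Are.dot Are.m.flip F f, fun a =>
      ⟨ContinuousLinearMap.comp f (Are.m.flip a), fun _ => rfl, rfl⟩, rfl⟩,
    Are.isOpen, Are.not₁, Are.not₂⟩

end Pool.Agent.Results.MP_5068ad_an.NotOpen
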